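import Mathlib

/-!
Project AGP (helper254, MP_773b62_nt): Carmichael numbers all of whose prime factors are large.
Exact statements of the tasks.
-/

set_option autoImplicit false

open Finset
open scoped Classical

namespace Pool.Agent.Q254.AGP

/-- primes `1` modulo `d` between `z` and `z ^ K`, for all `d ≤ z ^ (1/16)` that are not divisible by one
prime `l = l(z)` -/
def PGat (K : ℕ) (c : ℝ) : Prop := ∃ z0 : ℕ, ∀ z : ℕ, z0 ≤ z → ∃ l : ℕ, l.Prime ∧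
  ∀ d : ℕ, 0 < d → d ^ 16 ≤ z → ¬ l ∣ d →
    c / (d : ℝ) ≤ ∑ p ∈ (Ioc z (z ^ K)).filter (fun p => p.Prime ∧ p ≡ 1 [MOD d]), (1 : ℝ) / p

/-- PG -/
def S_PG : Prop := ∃ (K : ℕ) (c : ℝ), 1 ≤ K ∧ 0 < c ∧ PGat K c

/-- PH: pigeonhole over `k = (p - 1) / d` -/
def S_PH : Prop := ∀ (z X : ℕ) (D : Finset ℕ) (c : ℝ) (R : ℕ → ℕ → Prop), 1 ≤ z → 0 < c →
  D.Nonempty → (∀ d ∈ D, 0 < d) →
  (∀ d ∈ D, c / (d : ℝ) ≤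
    ∑ p ∈ (Ioc z X).filter (fun p => p.Prime ∧ p ≡ 1 [MOD d] ∧ R d p), (1 : ℝ) / p) →
  ∃ k : ℕ, 0 < k ∧ k ≤ X ∧ c * (D.card : ℝ) ≤ (1 + Real.log X) *
    ((D.filter (fun d => (d * k + 1).Prime ∧ z < d * k + 1 ∧ d * k + 1 ≤ X ∧
      R d (d * k + 1))).card : ℝ)

/-- TRIV: the trivial upper bound -/
def S_TRIV : Prop := ∀ z X D : ℕ, 1 ≤ z → 0 < D →
  ∑ p ∈ (Ioc z X).filter (fun p => p.Prime ∧ p ≡ 1 [MOD D]), (1 : ℝ) / p ≤ (1 + Real.log X) / D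

/-- ZS: subproducts equal to one -/
def S_ZS : Prop := ∀ L m : ℕ, 1 < L → 0 < m →
  (∀ a : ℕ, a.Coprime L → a ^ m ≡ 1 [MOD L]) → ∀ P : Finset ℕ, (∀ p ∈ P, p.Coprime L) →
  (m : ℝ) * Real.log L < P.card → ∃ S : Finset ℕ, S ⊆ P ∧ S.Nonempty ∧ ∏ p ∈ S, p ≡ 1 [MOD L]

/-- PR: Prachar's argument -/
def S_PR : Prop := ∀ (K : ℕ) (c : ℝ), 1 ≤ K → 0 < c → PGat K c → ∀ C : ℝ, ∃ z1 : ℕ, ∀ z : ℕ,
  z1 ≤ z → ∃ (M : ℕ) (Q : Finset ℕ), 0 < M ∧ M ≤ z ^ (K + 1) ∧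
    (∀ q ∈ Q, q.Prime ∧ z < q ∧ q ≤ z ^ K ∧ (q - 1) ∣ M) ∧ C * Real.log z ≤ Q.card

/-- CNT: counting the Fermat liars -/
def S_CNT : Prop := ∀ (S : Finset ℕ) (T : ℕ), 0 < T → S.Nonempty →
  (∀ p ∈ S, p.Prime ∧ T < p ∧ (p - 1) ∣ (∏ q ∈ S, q) - 1) →
  (1 - (S.card : ℝ) / T) * ((∏ q ∈ S, q : ℕ) : ℝ) ≤
    (((Finset.range (∏ q ∈ S, q)).filter
      (fun a => a ^ ((∏ q ∈ S, q) - 1) ≡ 1 [MOD ∏ q ∈ S, q])).card : ℝ)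

/-- EXP: the exponent of the units modulo a product of primes `q` with `q - 1 ∣ M` -/
def S_EXP : Prop := ∀ (M : ℕ) (Q : Finset ℕ), 0 < M → (∀ q ∈ Q, q.Prime ∧ (q - 1) ∣ M) →
  ∀ a : ℕ, a.Coprime (∏ q ∈ Q, q) → a ^ M ≡ 1 [MOD ∏ q ∈ Q, q]

/-- the statement of `S17475` -/
def S_MAIN : Prop := ∀ ε : ℝ, 0 < ε → ∀ N : ℕ, ∃ n : ℕ, N < n ∧ 1 < n ∧ ¬ Nat.Prime n ∧
      (1 - ε) * (n : ℝ) <
        (((Finset.range n).filter (fun a => a ^ (n - 1) ≡ 1 [MOD n])).card : ℝ)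

end Pool.Agent.Q254.AGP
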