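import Mathlib
import Pool.Agent.Q254.AGP.Stm

/-! Project AGP: assembly. -/

set_option autoImplicit false

open Finset
open scoped Classical

namespace Pool.Agent.Q254.AGP

/-- products of sets of primes -/
theorem prod_inj {A B : Finset ℕ} (hA : ∀ q ∈ A, q.Prime) (hB : ∀ q ∈ B, q.Prime)
    (h : ∏ q ∈ A, q = ∏ q ∈ B, q) : A = B := by
  have h1 := Nat.primeFactors_prod hA
  have h2 := Nat.primeFactors_prod hB
  rw [← h1, ← h2, h]

/-- removing the bad primes -/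
theorem remove (hT : S_TRIV) (z X d L : ℕ) (Q : Finset ℕ) (hQ : ∀ q ∈ Q, q.Prime)
    (hL : L = ∏ q ∈ Q, q) (hz : 1 ≤ z) (hd : 0 < d) (c w : ℝ) (hw : 0 < w) (hQw : ∀ q ∈ Q, w ≤ q)
    (hs : (Q.card : ℝ) * (1 + Real.log X) ≤ c / 2 * w)
    (h : c / (d : ℝ) ≤ ∑ p ∈ (Ioc z X).filter (fun p => p.Prime ∧ p ≡ 1 [MOD d]), (1 : ℝ) / p) :
    c / 2 / (d : ℝ) ≤ ∑ p ∈ (Ioc z X).filter (fun p => p.Prime ∧ p ≡ 1 [MOD d] ∧
      Nat.Coprime ((p - 1) / d) L), (1 : ℝ) / p := by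
  have hd' : (0 : ℝ) < d := by exact_mod_cast hd
  have hlog : 0 ≤ Real.log X := Real.log_natCast_nonneg X
  -- the bad ones
  have hbad : ∑ p ∈ (Ioc z X).filter (fun p => p.Prime ∧ p ≡ 1 [MOD d] ∧
      ¬ Nat.Coprime ((p - 1) / d) L), (1 : ℝ) / p ≤ c / 2 / d := by
    have h1 : ∑ p ∈ (Ioc z X).filter (fun p => p.Prime ∧ p ≡ 1 [MOD d] ∧
        ¬ Nat.Coprime ((p - 1) / d) L), (1 : ℝ) / p ≤
        ∑ q ∈ Q, ∑ p ∈ (Ioc z X).filter (fun p => p.Prime ∧ p ≡ 1 [MOD (d * q)]), (1 : ℝ) / p := by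
      have h2 : ∀ p ∈ (Ioc z X).filter (fun p => p.Prime ∧ p ≡ 1 [MOD d] ∧
          ¬ Nat.Coprime ((p - 1) / d) L), ∃ q ∈ Q, p ≡ 1 [MOD (d * q)] := by
        intro p hp
        rw [mem_filter] at hp
        obtain ⟨-, hp1, hp2, hp3⟩ := hp
        obtain ⟨q, hq, hq1, hq2⟩ := Nat.Prime.not_coprime_iff_dvd.1 hp3
        rw [hL] at hq2
        obtain ⟨r, hr, hqr⟩ := (hq.prime.dvd_finsetProd_iff _).1 hq2
        have : q = r := (Nat.prime_dvd_prime_iff_eq hq (hQ r hr)).1 hqr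
        subst this
        refine ⟨q, hr, ?_⟩
        have h3 : d ∣ p - 1 := (Nat.modEq_iff_dvd' hp1.one_lt.le).1 hp2.symm
        have h4 : d * q ∣ p - 1 := by
          obtain ⟨t, ht⟩ := h3
          rw [ht, Nat.mul_div_cancel_left _ hd] at hq1
          rw [ht]
          exact Nat.mul_dvd_mul_left d hq1
        exact ((Nat.modEq_iff_dvd' hp1.one_lt.le).2 h4).symm
      choose! g hg using h2
      rw [Finset.sum_sigma']
      have h5 : ∑ p ∈ (Ioc z X).filter (fun p => p.Prime ∧ p ≡ 1 [MOD d] ∧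
          ¬ Nat.Coprime ((p - 1) / d) L), (1 : ℝ) / p =
          ∑ x ∈ ((Ioc z X).filter (fun p => p.Prime ∧ p ≡ 1 [MOD d] ∧
          ¬ Nat.Coprime ((p - 1) / d) L)).image (fun p => (⟨g p, p⟩ : (_ : ℕ) × ℕ)),
            (1 : ℝ) / x.2 := by
        rw [Finset.sum_image]
        intro x _ y _ hxy
        simp only [Sigma.mk.injEq, heq_eq_eq] at hxy
        exact hxy.2
      rw [h5]
      apply Finset.sum_le_sum_of_subset_of_nonneg
      · intro x hx
        rw [mem_image] at hx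
        obtain ⟨p, hp, rfl⟩ := hx
        rw [mem_sigma, mem_filter]
        have := hg p hp
        rw [mem_filter] at hp
        exact ⟨this.1, hp.1, hp.2.1, this.2⟩
      · intro x _ _
        positivity
    refine h1.trans ?_
    have h2 : ∀ q ∈ Q, ∑ p ∈ (Ioc z X).filter (fun p => p.Prime ∧ p ≡ 1 [MOD (d * q)]), (1 : ℝ) / p ≤
        (1 + Real.log X) / (d * w) := by
      intro q hq
      have h3 := hT z X (d * q) hz (Nat.mul_pos hd (hQ q hq).pos)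
      refine h3.trans ?_
      push_cast
      have h4 := hQw q hq
      gcongr
    refine (Finset.sum_le_sum h2).trans ?_
    rw [Finset.sum_const, nsmul_eq_mul, ← mul_div_assoc, div_le_div_iff₀ (by positivity) hd']
    calc (Q.card : ℝ) * (1 + Real.log X) * d ≤ c / 2 * w * d := by gcongr
      _ = c / 2 * (d * w) := by ring
  have hsplit : ∑ p ∈ (Ioc z X).filter (fun p => p.Prime ∧ p ≡ 1 [MOD d]), (1 : ℝ) / p =
      ∑ p ∈ (Ioc z X).filter (fun p => p.Prime ∧ p ≡ 1 [MOD d] ∧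
        Nat.Coprime ((p - 1) / d) L), (1 : ℝ) / p +
      ∑ p ∈ (Ioc z X).filter (fun p => p.Prime ∧ p ≡ 1 [MOD d] ∧
        ¬ Nat.Coprime ((p - 1) / d) L), (1 : ℝ) / p := by
    rw [← Finset.sum_filter_add_sum_filter_not ((Ioc z X).filter (fun p => p.Prime ∧ p ≡ 1 [MOD d]))
      (fun p => Nat.Coprime ((p - 1) / d) L), filter_filter, filter_filter]
    congr 1
    · apply Finset.sum_congr _ (fun _ _ => rfl)
      ext p
      simp only [mem_filter]
      tauto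
    · apply Finset.sum_congr _ (fun _ _ => rfl)
      ext p
      simp only [mem_filter]
      tauto
  rw [hsplit] at h
  have e : c / (d : ℝ) = c / 2 / d + c / 2 / d := by ring
  linarith

/-- the size of the parameters -/
theorem params (K : ℕ) (c : ℝ) (hK : 1 ≤ K) (hc : 0 < c) (ε : ℝ) (hε : 0 < ε) (N z0 : ℕ) :
    ∃ z : ℕ, z0 ≤ z ∧ N ≤ z ∧ 3 ≤ z ∧ 1 / (z : ℝ) < ε ∧
      ((((K + 4) * (Nat.log 2 z + 1) : ℕ) : ℝ) + 1) ≤ (3 * ((K : ℝ) + 4) + 1) * Real.log z ∧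
      (((K + 4) * (Nat.log 2 z + 1) : ℕ) : ℝ) * (1 + Real.log
        (((((z ^ K) ^ (16 * ((K + 4) * (Nat.log 2 z + 1) + 1))) ^ K : ℕ)) : ℝ)) ≤ c / 2 * z ∧
      (K : ℝ) * (((K + 4) * (Nat.log 2 z + 1) : ℕ) : ℝ) * Real.log z ≤ z := by
  set C : ℝ := 3 * ((K : ℝ) + 4) + 1 with hC
  have hK' : (1 : ℝ) ≤ K := by exact_mod_cast hK
  have hC1 : 1 ≤ C := by rw [hC]; linarith
  set A : ℝ := 17 * (K : ℝ) ^ 2 * C ^ 2 with hA
  have hA0 : 0 < A := by positivity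
  set δ : ℝ := min (c / 2) 1 with hδ
  have hδ0 : 0 < δ := by rw [hδ]; exact lt_min (by linarith) one_pos
  have h1 : ∀ᶠ x : ℝ in Filter.atTop, ‖Real.log x ^ 3‖ ≤ (δ / A) * ‖id x‖ :=
    (Real.isLittleO_pow_log_id_atTop (n := 3)).def (by positivity)
  have h2 : ∀ᶠ z : ℕ in Filter.atTop, ‖Real.log (z : ℝ) ^ 3‖ ≤ (δ / A) * ‖id (z : ℝ)‖ :=
    tendsto_natCast_atTop_atTop.eventually h1
  obtain ⟨n0, hn0⟩ := exists_nat_gt (1 / ε)
  obtain ⟨z, hz⟩ := (h2.and (Filter.eventually_ge_atTop (z0 + N + 3 + n0))).exists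
  obtain ⟨hz1, hz2⟩ := hz
  have hz3 : 3 ≤ z := by omega
  have hzR : (3 : ℝ) ≤ z := by exact_mod_cast hz3
  have hzpos : (0 : ℝ) < z := by linarith
  have ht : 1 ≤ Real.log z := by
    rw [Real.le_log_iff_exp_le hzpos]
    have := Real.exp_one_lt_d9
    linarith
  have hz1' : A * Real.log z ^ 3 ≤ δ * z := by
    rw [Real.norm_of_nonneg (by positivity)] at hz1
    simp only [id] at hz1
    rw [Real.norm_of_nonneg hzpos.le] at hz1
    calc A * Real.log z ^ 3 ≤ A * (δ / A * z) := by gcongr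
      _ = δ * z := by field_simp
  have hlog2 : ((Nat.log 2 z : ℕ) : ℝ) ≤ 2 * Real.log z := by
    have h3 : (2 : ℕ) ^ Nat.log 2 z ≤ z := Nat.pow_log_le_self 2 (by omega)
    have h4 : ((2 : ℝ) ^ Nat.log 2 z) ≤ z := by exact_mod_cast h3
    have h5 := Real.log_le_log (by positivity) h4
    rw [Real.log_pow] at h5
    have h6 : (1 : ℝ) / 2 ≤ Real.log 2 := by
      have := Real.log_two_gt_d9
      linarith
    have h7 : (0 : ℝ) ≤ (Nat.log 2 z : ℕ) := by positivity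
    nlinarith
  have hs : ((((K + 4) * (Nat.log 2 z + 1) : ℕ) : ℝ) + 1) ≤ C * Real.log z := by
    push_cast
    rw [hC]
    nlinarith
  set s : ℕ := (K + 4) * (Nat.log 2 z + 1) with hsdef
  have hs0 : (0 : ℝ) ≤ (s : ℝ) := by positivity
  have hsC : (s : ℝ) ≤ C * Real.log z := by linarith
  have hX : Real.log (((((z ^ K) ^ (16 * (s + 1))) ^ K : ℕ)) : ℝ) =
      16 * (K : ℝ) ^ 2 * ((s : ℝ) + 1) * Real.log z := by
    push_cast
    rw [Real.log_pow, Real.log_pow, Real.log_pow]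
    push_cast
    ring
  have ht0 : 0 ≤ Real.log z := by linarith
  have ht2 : Real.log z ≤ Real.log z ^ 3 := by nlinarith [mul_nonneg ht0 ht0]
  have ht3 : Real.log z ^ 2 ≤ Real.log z ^ 3 := by nlinarith [mul_nonneg ht0 ht0]
  have hKK : (1 : ℝ) ≤ (K : ℝ) ^ 2 := by nlinarith
  have hCC : C ≤ C ^ 2 := by nlinarith
  refine ⟨z, by omega, by omega, hz3, ?_, hs, ?_, ?_⟩
  · rw [div_lt_iff₀ hzpos]
    rw [div_lt_iff₀ hε] at hn0
    have : (n0 : ℝ) ≤ z := by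
      have : n0 ≤ z := by omega
      exact_mod_cast this
    nlinarith
  · rw [hX]
    calc (s : ℝ) * (1 + 16 * (K : ℝ) ^ 2 * ((s : ℝ) + 1) * Real.log z)
        ≤ (C * Real.log z) * (1 + 16 * (K : ℝ) ^ 2 * (C * Real.log z) * Real.log z) := by gcongr
      _ = C * Real.log z + 16 * (K : ℝ) ^ 2 * C ^ 2 * Real.log z ^ 3 := by ring
      _ ≤ (K : ℝ) ^ 2 * C ^ 2 * Real.log z ^ 3 + 16 * (K : ℝ) ^ 2 * C ^ 2 * Real.log z ^ 3 := by
          gcongr
          calc C ≤ C ^ 2 := hCC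
            _ = 1 * C ^ 2 := by ring
            _ ≤ (K : ℝ) ^ 2 * C ^ 2 := by gcongr
      _ = A * Real.log z ^ 3 := by rw [hA]; ring
      _ ≤ δ * z := hz1'
      _ ≤ c / 2 * z := by gcongr; exact min_le_left _ _
  · calc (K : ℝ) * (s : ℝ) * Real.log z ≤ (K : ℝ) * (C * Real.log z) * Real.log z := by gcongr
      _ = K * C * Real.log z ^ 2 := by ring
      _ ≤ (17 * (K : ℝ) ^ 2) * C ^ 2 * Real.log z ^ 3 := by
          gcongr
          nlinarith
      _ ≤ δ * z := hz1'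
      _ ≤ 1 * z := by gcongr; exact min_le_right _ _
      _ = z := one_mul _

end Pool.Agent.Q254.AGP
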