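import Mathlib
import Pool.Agent.Q254.AGP.Stm
import Pool.Agent.Q254.AGP.Asm

/-! Project AGP: assembly of the main theorem. -/

set_option autoImplicit false

open Finset
open scoped Classical

namespace Pool.Agent.Q254.AGP

theorem main_of (hPG : S_PG) (hPH : S_PH) (hTR : S_TRIV) (hZS : S_ZS) (hPR : S_PR)
    (hCNT : S_CNT) (hEXP : S_EXP) : S_MAIN := by
  intro ε hε N
  obtain ⟨K, c, hK, hc, hPGat⟩ := hPG
  obtain ⟨z1, hz1⟩ := hPR K c hK hc hPGat (3 * ((K : ℝ) + 4) + 1)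
  obtain ⟨z0, hz0⟩ := hPGat
  obtain ⟨z, hzz, hzN, hz3, hzε, hsC, hsX, hsK⟩ := params K c hK hc ε hε N (z0 + z1)
  obtain ⟨M, Q, hM0, hMz, hQ, hQcard⟩ := hz1 z (by omega)
  set s : ℕ := (K + 4) * (Nat.log 2 z + 1) with hs
  set Z2 : ℕ := (z ^ K) ^ (16 * (s + 1)) with hZ2
  have hzpos : 0 < z := by omega
  have hzR : (3 : ℝ) ≤ z := by exact_mod_cast hz3
  have hs1 : K + 4 ≤ s := by rw [hs]; exact Nat.le_mul_of_pos_right _ (by omega)
  -- `Z2` is large
  have hZ2z : z ^ (K + 4) ≤ Z2 := by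
    rw [hZ2, ← pow_mul]
    apply Nat.pow_le_pow_right hzpos
    have : 1 * (1 * (s + 1)) ≤ K * (16 * (s + 1)) := Nat.mul_le_mul hK (by omega)
    omega
  have hzZ2 : z ≤ Z2 := by
    refine le_trans ?_ hZ2z
    exact Nat.le_self_pow (by omega) z
  have hzKZ2 : z ^ K ≤ Z2 := le_trans (Nat.pow_le_pow_right hzpos (by omega)) hZ2z
  have hZ2pos : 0 < Z2 := by omega
  obtain ⟨l, hl, hl2⟩ := hz0 Z2 (by omega)
  -- the primes dividing `L`
  have hcard1 : s + 1 ≤ Q.card := by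
    have : ((s + 1 : ℕ) : ℝ) ≤ (Q.card : ℝ) := by
      push_cast
      linarith
    exact_mod_cast this
  have hcard2 : s ≤ (Q.erase l).card := by
    have := Finset.pred_card_le_card_erase (s := Q) (a := l)
    omega
  obtain ⟨Q1, hQ1sub, hQ1card⟩ := Finset.exists_subset_card_eq hcard2
  have hQ1 : ∀ q ∈ Q1, q.Prime ∧ z < q ∧ q ≤ z ^ K ∧ (q - 1) ∣ M := fun q hq =>
    hQ q (Finset.mem_of_mem_erase (hQ1sub hq))
  have hlQ1 : l ∉ Q1 := fun h => Finset.notMem_erase l Q (hQ1sub h)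
  set L : ℕ := ∏ q ∈ Q1, q with hL
  have hLpos : 0 < L := Finset.prod_pos fun q hq => (hQ1 q hq).1.pos
  have hLle : L ≤ (z ^ K) ^ s := by
    rw [hL, ← hQ1card]
    exact Finset.prod_le_pow_card _ _ _ (fun q hq => (hQ1 q hq).2.2.1)
  have hlL : ¬ l ∣ L := by
    intro h
    rw [hL] at h
    obtain ⟨r, hr, hlr⟩ := (hl.prime.dvd_finsetProd_iff _).1 h
    have : l = r := (Nat.prime_dvd_prime_iff_eq hl (hQ1 r hr).1).1 hlr
    exact hlQ1 (this ▸ hr)
  have hL1 : 1 < L := by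
    have : Q1.Nonempty := by
      rw [← Finset.card_pos, hQ1card]
      omega
    obtain ⟨q, hq⟩ := this
    have h1 : q ∣ L := Finset.dvd_prod_of_mem _ hq
    have h2 := Nat.le_of_dvd hLpos h1
    have h3 := (hQ1 q hq).1.one_lt
    omega
  -- the divisors
  set D : Finset ℕ := (Q1.powerset.erase Q1).image (fun A => ∏ q ∈ A, q) with hD
  have hDinj : Set.InjOn (fun A : Finset ℕ => ∏ q ∈ A, q) (Q1.powerset.erase Q1 : Finset (Finset ℕ)) := by
    intro A hA B hB hAB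
    rw [Finset.mem_coe, Finset.mem_erase, Finset.mem_powerset] at hA hB
    exact prod_inj (fun q hq => (hQ1 q (hA.2 hq)).1) (fun q hq => (hQ1 q (hB.2 hq)).1) hAB
  have hDcard : D.card = 2 ^ s - 1 := by
    rw [hD, Finset.card_image_of_injOn hDinj, Finset.card_erase_of_mem (by simp), card_powerset,
      hQ1card]
  have hDprop : ∀ d ∈ D, 0 < d ∧ d ∣ L ∧ d ≠ L := by
    intro d hd
    rw [hD, Finset.mem_image] at hd
    obtain ⟨A, hA, rfl⟩ := hd
    rw [Finset.mem_erase, Finset.mem_powerset] at hA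
    refine ⟨Finset.prod_pos fun q hq => (hQ1 q (hA.2 hq)).1.pos,
      Finset.prod_dvd_prod_of_subset _ _ _ hA.2, ?_⟩
    intro h
    exact hA.1 (prod_inj (fun q hq => (hQ1 q (hA.2 hq)).1) (fun q hq => (hQ1 q hq).1) h)
  have h2s : z ^ (K + 4) + 1 ≤ 2 ^ s := by
    have h1 : z < 2 ^ (Nat.log 2 z + 1) := Nat.lt_pow_succ_log_self (by omega) z
    have h2 : z ^ (K + 4) < (2 ^ (Nat.log 2 z + 1)) ^ (K + 4) := Nat.pow_lt_pow_left h1 (by omega)
    rw [← pow_mul, mul_comm (Nat.log 2 z + 1) (K + 4), ← hs] at h2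
    omega
  have hDcard2 : z ^ (K + 4) ≤ D.card := by omega
  have hDne : D.Nonempty := by
    rw [← Finset.card_pos]
    have : 0 < z ^ (K + 4) := pow_pos hzpos _
    omega
  -- primes
  have hmain : ∀ d ∈ D, c / 2 / (d : ℝ) ≤ ∑ p ∈ (Ioc Z2 (Z2 ^ K)).filter
      (fun p => p.Prime ∧ p ≡ 1 [MOD d] ∧ Nat.Coprime ((p - 1) / d) L), (1 : ℝ) / p := by
    intro d hd
    obtain ⟨hd0, hdL, -⟩ := hDprop d hd
    refine remove hTR Z2 (Z2 ^ K) d L Q1 (fun q hq => (hQ1 q hq).1) hL hZ2pos hd0 c z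
      (by exact_mod_cast hzpos) (fun q hq => by exact_mod_cast (hQ1 q hq).2.1.le) ?_ ?_
    · rw [hQ1card]
      exact hsX
    · apply hl2 d hd0
      · have h1 : d ≤ (z ^ K) ^ s := (Nat.le_of_dvd hLpos hdL).trans hLle
        calc d ^ 16 ≤ ((z ^ K) ^ s) ^ 16 := Nat.pow_le_pow_left h1 16
          _ = (z ^ K) ^ (s * 16) := by rw [← pow_mul]
          _ ≤ Z2 := by
            rw [hZ2]
            exact Nat.pow_le_pow_right (pow_pos hzpos _) (by omega)
      · exact fun h => hlL (h.trans hdL)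
  obtain ⟨k, hk0, -, hk⟩ := hPH Z2 (Z2 ^ K) D (c / 2) (fun d p => Nat.Coprime ((p - 1) / d) L)
    hZ2pos (by linarith) hDne (fun d hd => (hDprop d hd).1)
    (by intro d hd; convert hmain d hd)
  set D' : Finset ℕ := D.filter (fun d => (d * k + 1).Prime ∧ Z2 < d * k + 1 ∧
    d * k + 1 ≤ Z2 ^ K ∧ Nat.Coprime ((d * k + 1 - 1) / d) L) with hD'
  have hlogX : (0 : ℝ) ≤ Real.log ((Z2 ^ K : ℕ) : ℝ) := Real.log_natCast_nonneg _
  have hX1 : 1 + Real.log ((Z2 ^ K : ℕ) : ℝ) ≤ c / 2 * z := by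
    refine le_trans ?_ hsX
    have h1 : (1 : ℝ) ≤ (s : ℝ) := by
      have : 1 ≤ s := by omega
      exact_mod_cast this
    nlinarith
  have hD'card : z ^ (K + 2) + 1 ≤ D'.card := by
    have h1 : c / 2 * (D.card : ℝ) ≤ c / 2 * ((z : ℝ) * D'.card) := by
      calc c / 2 * (D.card : ℝ) ≤ (1 + Real.log ((Z2 ^ K : ℕ) : ℝ)) * (D'.card : ℝ) := by
            convert hk
        _ ≤ (c / 2 * z) * (D'.card : ℝ) := by gcongr
        _ = c / 2 * ((z : ℝ) * D'.card) := by ring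
    have h2 : (D.card : ℝ) ≤ (z : ℝ) * D'.card := le_of_mul_le_mul_left h1 (by linarith)
    have h3 : D.card ≤ z * D'.card := by exact_mod_cast h2
    have h4 : z * z ^ (K + 3) ≤ z * D'.card := by
      calc z * z ^ (K + 3) = z ^ (K + 4) := by ring
        _ ≤ D.card := hDcard2
        _ ≤ z * D'.card := h3
    have h5 : z ^ (K + 3) ≤ D'.card := Nat.le_of_mul_le_mul_left h4 hzpos
    have h6 : 1 ≤ z ^ (K + 2) := Nat.one_le_pow _ _ hzpos
    calc z ^ (K + 2) + 1 ≤ z ^ (K + 2) + z ^ (K + 2) := by omega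
      _ = 2 * z ^ (K + 2) := by ring
      _ ≤ z * z ^ (K + 2) := Nat.mul_le_mul_right _ (by omega)
      _ = z ^ (K + 3) := by ring
      _ ≤ D'.card := h5
  obtain ⟨D2, hD2sub, hD2card⟩ := Finset.exists_subset_card_eq hD'card
  set P : Finset ℕ := D2.image (fun d => d * k + 1) with hP
  have hPcard : P.card = z ^ (K + 2) + 1 := by
    rw [hP, Finset.card_image_of_injective, hD2card]
    intro a b hab
    simp only [add_left_inj] at hab
    exact Nat.eq_of_mul_eq_mul_right hk0 hab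
  have hPprop : ∀ p ∈ P, p.Prime ∧ Z2 < p ∧ Nat.Coprime k L ∧
      ∃ d, p = d * k + 1 ∧ 0 < d ∧ d ∣ L ∧ d ≠ L := by
    intro p hp
    rw [hP, Finset.mem_image] at hp
    obtain ⟨d, hd, rfl⟩ := hp
    have h1 := hD2sub hd
    rw [hD', Finset.mem_filter] at h1
    obtain ⟨h1, h2, h3, -, h4⟩ := h1
    obtain ⟨h5, h6, h7⟩ := hDprop d h1
    rw [Nat.add_sub_cancel, Nat.mul_div_cancel_left _ h5] at h4
    exact ⟨h2, h3, h4, d, rfl, h5, h6, h7⟩
  have hPcop : ∀ p ∈ P, p.Coprime L := by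
    intro p hp
    obtain ⟨h1, h2, -⟩ := hPprop p hp
    rw [Nat.Prime.coprime_iff_not_dvd h1, hL]
    intro h
    obtain ⟨r, hr, hpr⟩ := (h1.prime.dvd_finsetProd_iff _).1 h
    have h3 : p = r := (Nat.prime_dvd_prime_iff_eq h1 (hQ1 r hr).1).1 hpr
    have h4 := (hQ1 r hr).2.2.1
    omega
  -- zero sum
  have hMlog : (M : ℝ) * Real.log L < P.card := by
    have h1 : Real.log L ≤ (s : ℝ) * ((K : ℝ) * Real.log z) := by
      have h2 : (L : ℝ) ≤ ((z : ℝ) ^ K) ^ s := by exact_mod_cast hLle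
      have h3 := Real.log_le_log (by exact_mod_cast hLpos) h2
      rwa [Real.log_pow, Real.log_pow] at h3
    have h2 : (M : ℝ) ≤ (z : ℝ) ^ (K + 1) := by exact_mod_cast hMz
    have h3 : (0 : ℝ) ≤ Real.log z := Real.log_natCast_nonneg _
    rw [hPcard]
    push_cast
    calc (M : ℝ) * Real.log L ≤ (z : ℝ) ^ (K + 1) * ((s : ℝ) * ((K : ℝ) * Real.log z)) := by
          apply mul_le_mul h2 h1 (Real.log_natCast_nonneg _) (by positivity)
      _ = (z : ℝ) ^ (K + 1) * ((K : ℝ) * (s : ℝ) * Real.log z) := by ring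
      _ ≤ (z : ℝ) ^ (K + 1) * z := by gcongr
      _ = (z : ℝ) ^ (K + 2) := by ring
      _ < (z : ℝ) ^ (K + 2) + 1 := by linarith
  obtain ⟨S, hSP, hSne, hS1⟩ := hZS L M hL1 hM0
    (fun a ha => hEXP M Q1 hM0 (fun q hq => ⟨(hQ1 q hq).1, (hQ1 q hq).2.2.2⟩) a ha) P hPcop hMlog
  set n : ℕ := ∏ p ∈ S, p with hn
  have hnpos : 0 < n := Finset.prod_pos fun p hp => (hPprop p (hSP hp)).1.pos
  obtain ⟨p0, hp0⟩ := hSne
  have hnp0 : p0 ≤ n := Nat.le_of_dvd hnpos (Finset.dvd_prod_of_mem _ hp0)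
  have hp0Z : Z2 < p0 := (hPprop p0 (hSP hp0)).2.1
  have hn1 : 1 ≤ n := hnpos
  have hkL : Nat.Coprime k L := (hPprop p0 (hSP hp0)).2.2.1
  have hnk : n ≡ 1 [MOD k] := by
    have : ∀ T : Finset ℕ, T ⊆ S → ∏ p ∈ T, p ≡ 1 [MOD k] := by
      intro T
      induction T using Finset.induction_on with
      | empty => intro _; simp; rfl
      | insert a T ha ih =>
        intro hT
        rw [Finset.prod_insert ha]
        have h1 := ih (fun x hx => hT (Finset.mem_insert_of_mem hx))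
        obtain ⟨-, -, -, d, hd, -⟩ := hPprop a (hSP (hT (Finset.mem_insert_self a T)))
        have h2 : a ≡ 1 [MOD k] := by
          rw [hd]
          have : d * k + 1 ≡ 0 + 1 [MOD k] :=
            Nat.ModEq.add_right 1 ((Nat.modEq_zero_iff_dvd).2 (Dvd.intro_left d rfl))
          simpa only [zero_add] using this
        simpa using h2.mul h1
    exact this S (Finset.Subset.refl S)
  have hkLn : k * L ∣ n - 1 := by
    apply Nat.Coprime.mul_dvd_of_dvd_of_dvd hkL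
    · exact (Nat.modEq_iff_dvd' hn1).1 hnk.symm
    · exact (Nat.modEq_iff_dvd' hn1).1 hS1.symm
  have hdvd : ∀ p ∈ S, (p - 1) ∣ n - 1 := by
    intro p hp
    obtain ⟨-, -, -, d, hd, -, hdL, -⟩ := hPprop p (hSP hp)
    have : p - 1 = k * d := by rw [hd, Nat.add_sub_cancel, mul_comm]
    rw [this]
    exact (Nat.mul_dvd_mul_left k hdL).trans hkLn
  have hcnt := hCNT S Z2 hZ2pos ⟨p0, hp0⟩ (fun p hp =>
    ⟨(hPprop p (hSP hp)).1, (hPprop p (hSP hp)).2.1, hdvd p hp⟩)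
  rw [← hn] at hcnt
  refine ⟨n, by omega, by omega, ?_, lt_of_lt_of_le ?_ hcnt⟩
  · intro hnprime
    obtain ⟨hp0p, -, -, d, hd, hd0, hdL, hdne⟩ := hPprop p0 (hSP hp0)
    have h1 : p0 ∣ n := Finset.dvd_prod_of_mem _ hp0
    have h2 : p0 = n := (Nat.prime_dvd_prime_iff_eq hp0p hnprime).1 h1
    have h3 : L ∣ n - 1 := (dvd_mul_left L k).trans hkLn
    rw [← h2, hd, Nat.add_sub_cancel] at h3
    have h4 : L ∣ d := Nat.Coprime.dvd_of_dvd_mul_right hkL.symm h3
    exact hdne (Nat.dvd_antisymm hdL h4)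
  · have hnR : (0 : ℝ) < n := by exact_mod_cast hnpos
    apply mul_lt_mul_of_pos_right _ hnR
    have h1 : S.card ≤ z ^ (K + 3) := by
      calc S.card ≤ P.card := Finset.card_le_card hSP
        _ = z ^ (K + 2) + 1 := hPcard
        _ ≤ z ^ (K + 2) + z ^ (K + 2) := by
          have : 1 ≤ z ^ (K + 2) := Nat.one_le_pow _ _ hzpos
          omega
        _ = 2 * z ^ (K + 2) := by ring
        _ ≤ z * z ^ (K + 2) := Nat.mul_le_mul_right _ (by omega)
        _ = z ^ (K + 3) := by ring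
    have h2 : (S.card : ℝ) / Z2 ≤ 1 / z := by
      have hz0' : (0 : ℝ) < z := by linarith
      rw [div_le_div_iff₀ (by exact_mod_cast hZ2pos) hz0']
      have h3 : S.card * z ≤ Z2 := by
        calc S.card * z ≤ z ^ (K + 3) * z := Nat.mul_le_mul_right _ h1
          _ = z ^ (K + 4) := by ring
          _ ≤ Z2 := hZ2z
      have h4 : ((S.card * z : ℕ) : ℝ) ≤ (Z2 : ℝ) := by exact_mod_cast h3
      push_cast at h4
      linarith
    linarith

end Pool.Agent.Q254.AGP
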